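import Pool.Agent.Q173.KS.Stm

/-!
# Project KS (helper173), job DIAG: the state after the pair swaps
-/

set_option autoImplicit false

namespace Pool.Agent.Q265.KS

open Pool.Agent.Q173.KS Finset

variable {I : Type} [Fintype I] [DecidableEq I]

/-- the action of a permutation of the indices on the positions -/
def PP (π : Equiv.Perm I) : Equiv.Perm (Bool × I) := (Equiv.refl Bool).prodCongr π

omit [Fintype I] [DecidableEq I] in
lemma PP_apply (π : Equiv.Perm I) (x : Bool × I) : PP π x = (x.1, π x.2) := rfl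

omit [Fintype I] [DecidableEq I] in
lemma mem_PP (π : Equiv.Perm I) (R : Finset (Bool × I)) (x : Bool × I) :
    x ∈ R.map (PP π).toEmbedding ↔ (x.1, π.symm x.2) ∈ R := by
  rw [Finset.mem_map_equiv]
  rfl

lemma mem_Lf (x : Bool × I) : x ∈ Lf I ↔ x.1 = false := by simp [Lf]

lemma mem_Rt (x : Bool × I) : x ∈ Rt I ↔ x.1 = true := by simp [Rt]

lemma card_Lf (π : Equiv.Perm I) (R : Finset (Bool × I)) :
    (R.map (PP π).toEmbedding ∩ Lf I).card = (R ∩ Lf I).card := by
  have h : R.map (PP π).toEmbedding ∩ Lf I = (R ∩ Lf I).map (PP π).toEmbedding := by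
    ext x
    simp only [mem_inter, mem_PP, mem_Lf]
  rw [h, card_map]

lemma card_Rt (π : Equiv.Perm I) (R : Finset (Bool × I)) :
    (R.map (PP π).toEmbedding ∩ Rt I).card = (R ∩ Rt I).card := by
  have h : R.map (PP π).toEmbedding ∩ Rt I = (R ∩ Rt I).map (PP π).toEmbedding := by
    ext x
    simp only [mem_inter, mem_PP, mem_Rt]
  rw [h, card_map]

lemma card_split (R : Finset (Bool × I)) : (R ∩ Lf I).card + (R ∩ Rt I).card = R.card := by
  rw [← card_union_of_disjoint]
  · congr 1
    ext x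
    simp only [mem_union, mem_inter, mem_Lf, mem_Rt]
    cases x.1 <;> simp
  · rw [disjoint_left]
    intro x hx hx'
    rw [mem_inter, mem_Lf] at hx
    rw [mem_inter, mem_Rt] at hx'
    rw [hx.2] at hx'
    exact absurd hx'.2 (by simp)

lemma inv_PP {k : ℕ} {Φ : Finset (Bool × I) → ℝ} (hL : InvOn k (Lf I) Φ) (hR : InvOn k (Rt I) Φ)
    (π : Equiv.Perm I) (R : Finset (Bool × I)) (hk : R.card ≤ k) :
    Φ (R.map (PP π).toEmbedding) = Φ R := by
  obtain ⟨R1, hR1⟩ : ∃ R1, R1 = (R.map (PP π).toEmbedding ∩ Lf I) ∪ (R ∩ Rt I) := ⟨_, rfl⟩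
  have hm : ∀ x, x ∈ R1 ↔ (x ∈ R.map (PP π).toEmbedding ∧ x.1 = false) ∨ (x ∈ R ∧ x.1 = true) := by
    intro x
    rw [hR1, mem_union, mem_inter, mem_inter, mem_Lf, mem_Rt]
  have h1 : R1 ∩ Lf I = R.map (PP π).toEmbedding ∩ Lf I := by
    ext x
    rw [mem_inter, mem_inter, hm, mem_Lf]
    cases x.1 <;> simp
  have h2 : R1 ∩ Rt I = R ∩ Rt I := by
    ext x
    rw [mem_inter, mem_inter, hm, mem_Rt]
    cases x.1 <;> simp
  have hc : R1.card ≤ k := by
    rw [← card_split, h1, h2, card_Lf, card_split]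
    exact hk
  have e1 : Φ R = Φ R1 := by
    refine hL R R1 hk ?_ ?_
    · ext x
      rw [mem_sdiff, mem_sdiff, hm, mem_Lf]
      cases x.1 <;> simp
    · rw [h1, card_Lf]
  have e2 : Φ R1 = Φ (R.map (PP π).toEmbedding) := by
    refine hR R1 _ hc ?_ ?_
    · ext x
      rw [mem_sdiff, mem_sdiff, hm, mem_Rt]
      cases x.1 <;> simp
    · rw [h2, card_Rt]
  rw [e1, e2]

/-- the permutation of the indices -/
lemma exists_perm (S S' : Finset (Bool × I)) (h1 : (pL S).card = (pL S').card)
    (h2 : (pR S).card = (pR S').card) (h3 : (pL S ∩ pR S).card = (pL S' ∩ pR S').card) :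
    ∃ π : Equiv.Perm I, S' = S.map (PP π).toEmbedding := by
  let t : I → Bool × Bool := fun i => (decide ((false, i) ∈ S), decide ((true, i) ∈ S))
  let t' : I → Bool × Bool := fun i => (decide ((false, i) ∈ S'), decide ((true, i) ∈ S'))
  have key : ∀ T : Finset (Bool × I), ∀ a b : Bool,
      Fintype.card {i : I // ((decide ((false, i) ∈ T), decide ((true, i) ∈ T)) : Bool × Bool) = (a, b)} =
      (if a then (if b then (pL T ∩ pR T).card else (pL T).card - (pL T ∩ pR T).card)
        else (if b then (pR T).card - (pL T ∩ pR T).card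
          else Fintype.card I - ((pL T).card + (pR T).card - (pL T ∩ pR T).card))) := by
    intro T a b
    rw [Fintype.card_subtype]
    have hu : (pL T ∪ pR T).card = (pL T).card + (pR T).card - (pL T ∩ pR T).card := by
      have := card_union_add_card_inter (pL T) (pR T)
      omega
    cases a <;> cases b
    · simp only [Bool.false_eq_true, if_false]
      rw [← hu, ← card_compl]
      congr 1
      ext i
      simp [pL, pR]
    · simp only [Bool.false_eq_true, if_false, if_true]
      rw [inter_comm, ← card_sdiff_add_card_inter (pR T) (pL T), Nat.add_sub_cancel]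
      congr 1
      ext i
      simp [pL, pR, and_comm]
    · simp only [Bool.false_eq_true, if_false, if_true]
      rw [← card_sdiff_add_card_inter (pL T) (pR T), Nat.add_sub_cancel]
      congr 1
      ext i
      simp [pL, pR]
    · simp only [if_true]
      congr 1
      ext i
      simp [pL, pR]
  have hfib : ∀ c : Bool × Bool, Nonempty ({i // t i = c} ≃ {i // t' i = c}) := by
    rintro ⟨a, b⟩
    have e1 := key S a b
    have e2 := key S' a b
    rw [h1, h2, h3] at e1
    exact ⟨Fintype.equivOfCardEq (e1.trans e2.symm)⟩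
  have e := fun c => (hfib c).some
  refine ⟨Equiv.ofFiberEquiv e, ?_⟩
  have hπ : ∀ i, t' (Equiv.ofFiberEquiv e i) = t i := fun i => Equiv.ofFiberEquiv_map e i
  obtain ⟨π, hπ'⟩ : ∃ π, π = Equiv.ofFiberEquiv e := ⟨_, rfl⟩
  rw [← hπ'] at hπ ⊢
  ext ⟨b, i⟩
  rw [mem_PP]
  have h := hπ (π.symm i)
  rw [Equiv.apply_symm_apply] at h
  have ha := congrArg Prod.fst h
  have hb := congrArg Prod.snd h
  change decide ((false, i) ∈ S') = decide ((false, π.symm i) ∈ S) at ha
  change decide ((true, i) ∈ S') = decide ((true, π.symm i) ∈ S) at hb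
  rw [decide_eq_decide] at ha hb
  cases b
  · exact ha
  · exact hb

lemma swD_comm (π : Equiv.Perm I) (D : Finset I) :
    (PP π).toEmbedding.trans (swD (D.map π.toEmbedding)).toEmbedding =
      (swD D).toEmbedding.trans (PP π).toEmbedding := by
  ext1 x
  show swD (D.map π.toEmbedding) (PP π x) = PP π (swD D x)
  show (if (PP π x).2 ∈ D.map π.toEmbedding then (!(PP π x).1, (PP π x).2) else PP π x) =
    PP π (if x.2 ∈ D then (!x.1, x.2) else x)
  rw [PP_apply]
  have h : π x.2 ∈ D.map π.toEmbedding ↔ x.2 ∈ D := by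
    rw [Finset.mem_map_equiv, Equiv.symm_apply_apply]
  by_cases hx : x.2 ∈ D
  · rw [if_pos (h.2 hx), if_pos hx]
    rfl
  · rw [if_neg (fun h' => hx (h.1 h')), if_neg hx]
    rfl

lemma ES_half (hPAIRS : S_PAIRS) (Φ : Finset (Bool × I) → ℝ) (S : Finset (Bool × I)) :
    ES (pairsP (fun _ => 1 / 2)) Φ S =
      (1 / 2) ^ Fintype.card I * ∑ D : Finset I, Φ (S.map (swD D).toEmbedding) := by
  unfold ES
  rw [hPAIRS, mul_sum]
  refine sum_congr rfl fun D _ => ?_
  congr 1
  rw [prod_const, prod_const, show (1 : ℝ) - 1 / 2 = 1 / 2 by norm_num, ← pow_add,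
    card_add_card_compl]

theorem diag (hPAIRS : S_PAIRS) : S_DIAG := by
  intro I _ _ k Φ hL hR S S' hk h1 h2 h3
  obtain ⟨π, rfl⟩ := exists_perm S S' h1 h2 h3
  rw [ES_half hPAIRS, ES_half hPAIRS]
  congr 1
  rw [← Equiv.sum_comp (Equiv.finsetCongr π)
    (fun D => Φ ((S.map (PP π).toEmbedding).map (swD D).toEmbedding))]
  refine sum_congr rfl fun D _ => ?_
  rw [Equiv.finsetCongr_apply, Finset.map_map, swD_comm, ← Finset.map_map,
    inv_PP hL hR π _ (by rw [card_map]; exact hk)]

end Pool.Agent.Q265.KS
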